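import Mathlib

namespace Pool.Agent.Results.MP_81a4f1_co.Counter
open SimpleGraph

/-- Local independence number: the independence number of the graph induced on `N(v)`. -/
noncomputable def loc {V : Type*} (G : SimpleGraph V) (v : V) : ℕ :=
  (G.induce (G.neighborSet v)).indepNum

/-- Number of vertices whose local independence number is the maximum one. -/
noncomputable def freq {V : Type*} (G : SimpleGraph V) : ℕ :=
  {v | ∀ w, loc G w ≤ loc G v}.ncard

def H : SimpleGraph (Fin 11) where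
  Adj a b := a ≠ b ∧ ((5 ≤ a ∧ (b = 0 ∨ 3 ≤ b)) ∨ (5 ≤ b ∧ (a = 0 ∨ 3 ≤ a)) ∨
    (a = 0 ∧ b ≤ 2) ∨ (b = 0 ∧ a ≤ 2))
  symm := ⟨by decide⟩
  loopless := ⟨by decide⟩

instance : DecidableRel H.Adj := fun a b => by unfold H; infer_instance

set_option synthInstance.maxSize 4000 in
lemma le3 (v : Fin 11) : loc H v ≤ 3 := by
  obtain ⟨S, hS⟩ := (H.induce (H.neighborSet v)).exists_isNIndepSet_indepNum
  by_contra h
  have h4 : 3 < S.card := by rw [hS.card_eq]; exact not_le.1 h
  obtain ⟨a, ha, b, hb, c, hc, d, hd, n1, n2, n3, n4, n5, n6⟩ := Finset.three_lt_card.1 h4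
  have k : ∀ v a : Fin 11, H.Adj v a → ∀ b, H.Adj v b → a ≠ b → ¬ H.Adj a b → ∀ c, H.Adj v c →
      a ≠ c → ¬ H.Adj a c → b ≠ c → ¬ H.Adj b c → ∀ d, H.Adj v d → a ≠ d → ¬ H.Adj a d → b ≠ d →
      ¬ H.Adj b d → c ≠ d → H.Adj c d := by decide +kernel
  have i := hS.isIndepSet
  exact i hc hd n6 (k v a a.2 b b.2 (Subtype.coe_ne_coe.2 n1) (i ha hb n1) c c.2
    (Subtype.coe_ne_coe.2 n2) (i ha hc n2) (Subtype.coe_ne_coe.2 n4) (i hb hc n4) d d.2
    (Subtype.coe_ne_coe.2 n3) (i ha hd n3) (Subtype.coe_ne_coe.2 n5) (i hb hd n5)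
    (Subtype.coe_ne_coe.2 n6))

lemma ge3 (v a b c : Fin 11) (ha : H.Adj v a) (hb : H.Adj v b) (hc : H.Adj v c) (n1 : a ≠ b)
    (n2 : a ≠ c) (n3 : b ≠ c) (m1 : ¬ H.Adj a b) (m2 : ¬ H.Adj a c) (m3 : ¬ H.Adj b c) :
    3 ≤ loc H v := by
  have i : (H.induce (H.neighborSet v)).IsIndepSet
      (({⟨a, ha⟩, ⟨b, hb⟩, ⟨c, hc⟩} : Finset (H.neighborSet v)) : Set _) := by
    intro x hx y hy hxy
    simp only [Finset.coe_insert, Finset.coe_singleton, Set.mem_insert_iff,
      Set.mem_singleton_iff] at hx hy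
    rcases hx with rfl | rfl | rfl <;> rcases hy with rfl | rfl | rfl <;>
      first | exact absurd rfl hxy | assumption | exact fun q => m1 q.symm |
        exact fun q => m2 q.symm | exact fun q => m3 q.symm
  have := i.card_le_indepNum
  rwa [Finset.card_eq_three.2 ⟨_, _, _, by simpa, by simpa, by simpa, rfl⟩] at this

theorem result : ¬ ∀ (n : ℕ) (G : SimpleGraph (Fin n)), 1 < n → G.Connected →
    (1 + 2 * (Gᶜ.edgeSet.ncard : ℝ)) / 6 ≤ freq G →
    ∃ (u v : Fin n) (p : G.Walk u v), p.IsHamiltonian := by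
  intro h
  obtain ⟨u, v, p, hp⟩ := h 11 H (by omega) (by
    have k : ∀ w, H.Reachable 5 w := by
      intro w
      by_cases e : w = 1 ∨ w = 2
      · exact (show H.Adj 5 0 by decide).reachable.trans
          (Adj.reachable (by rcases e with rfl | rfl <;> decide))
      · by_cases e2 : w = 5
        · rw [e2]
        · exact Adj.reachable (by revert w; decide)
    exact ⟨fun a b => (k a).symm.trans (k b)⟩) (by
    have e : Hᶜ.edgeSet.ncard = 20 := by
      rw [← coe_edgeFinset, Set.ncard_coe_finset]; decide +kernel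
    have f : 7 ≤ freq H := by
      have : (({0, 5, 6, 7, 8, 9, 10} : Finset (Fin 11)) : Set (Fin 11)) ⊆
          {v | ∀ w, loc H w ≤ loc H v} := by
        intro v hv w
        refine (le3 w).trans ?_
        by_cases e : v = 0
        · subst e; apply ge3 0 1 2 5 <;> decide
        · apply ge3 v 0 3 4 <;> first | decide | (revert v; decide)
      have := Set.ncard_le_ncard this
      rwa [Set.ncard_coe_finset] at this
    have : (7 : ℝ) ≤ freq H := by exact_mod_cast f
    rw [e]; norm_num; linarith)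
  have hl : p.length = 10 := by have := hp.length_eq; simpa using this
  have inj := hp.isPath.getVert_injOn
  obtain ⟨k, hk, k1⟩ := Walk.mem_support_iff_exists_getVert.1 (hp.mem_support 0)
  have key : ∀ x : Fin 11, (∀ y, H.Adj x y → y = 0) → ∃ i, p.getVert i = x ∧
      (i = 0 ∧ k = 1 ∨ i = 10 ∧ k = 9) := by
    intro x hx
    obtain ⟨i, hi, i1⟩ := Walk.mem_support_iff_exists_getVert.1 (hp.mem_support x)
    have a : i < 10 → i + 1 = k := fun q => inj (by simp; omega) (by simpa using k1) (by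
      rw [hk]; exact hx _ (hi ▸ p.adj_getVert_succ (by omega)))
    have b : 0 < i → i - 1 = k := fun q => inj (by simp; omega) (by simpa using k1) (by
      have := p.adj_getVert_succ (i := i - 1) (by omega)
      rw [show i - 1 + 1 = i by omega, hi] at this
      rw [hk]; exact hx _ this.symm)
    exact ⟨i, hi, by omega⟩
  obtain ⟨i, hi, a⟩ := key 1 (by decide)
  obtain ⟨j, hj, b⟩ := key 2 (by decide)
  have : i = j := by omega
  rw [this, hj] at hi
  exact absurd hi (by decide)

end Pool.Agent.Results.MP_81a4f1_co.Counter
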